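import Pool.Agent.R996.Trop.Defs
import Pool.Agent.R996.Trop.Gen

/-!
# Not every supermodular tropical polynomial is the tail function of a tropicalized Gaussian
-/

set_option autoImplicit false

open MeasureTheory Pool.Agent.R996.Trop
open scoped NormedField Valued

universe u

namespace Pool.Agent.Results.MP_90534d_pr.ConverseFailsAllDims

/-- For every `d ≥ 3` there are integer supermodular coefficients `c` on the cube such that, over
every non-archimedean local field `K` (with uniformiser `π`), no lattice `L = A 𝒪^d` satisfies
`φ_L = tropPoly c` on `ℤ^d`. -/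
theorem result :
    ∀ d : ℕ, 3 ≤ d → ∃ c : Finset (Fin d) → ℤ, IsSupermodular c ∧
      ∀ (K : Type u) [NontriviallyNormedField K] [IsUltrametricDist K] [ProperSpace K]
        [MeasurableSpace K] [BorelSpace K] (π : K), IsUniformizer π →
        ∀ A : GL (Fin d) K, ∃ v : Fin d → ℤ, phiL π A v ≠ tropPoly c (fun i => (v i : ℝ)) :=
  fun _ h => ⟨Gen.c3 h, Gen.c3_super h, fun _ _ _ _ _ _ π hπ A => Gen.main h π hπ A⟩

end Pool.Agent.Results.MP_90534d_pr.ConverseFailsAllDims
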